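import Mathlib
import Pool.Agent.H93.Hol4

namespace Pool.Agent.Results.MP_e08f0b_an.UpperBound

universe u

theorem result : ∃ C : ℝ, 0 < C ∧ ∀ α : ℝ, 1 / 2 < α → α < 1 →
    ∀ (n : ℕ) (M : Type u) [MetricSpace M] (E : Set M) (φ : E → EuclideanSpace ℝ (Fin n)),
      (∀ x y : E, ‖φ x - φ y‖ ≤ dist (x : M) (y : M) ^ α) →
      ∃ ψ : M → EuclideanSpace ℝ (Fin n), (∀ x : E, ψ x = φ x) ∧
        ∀ x y : M, ‖ψ x - ψ y‖ ≤ C * (n : ℝ) ^ (α - 1 / 2) * dist x y ^ α := by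
  have hL : 0 ≤ H93Hol.L0 := by unfold H93Hol.L0; positivity
  refine ⟨18000000 * (1 + H93Hol.L0), by positivity, fun α h0 h1 n M _ E φ hφ => ?_⟩
  rcases Nat.eq_zero_or_pos n with hn | hn
  · subst hn
    refine ⟨fun _ => 0, fun x => Subsingleton.elim _ _, fun x y => ?_⟩
    simp only [sub_self, norm_zero]
    positivity
  rcases E.eq_empty_or_nonempty with hE | hE
  · subst hE
    refine ⟨fun _ => 0, fun x => absurd x.2 (Set.notMem_empty _), fun x y => ?_⟩
    simp only [sub_self, norm_zero]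
    positivity
  exact H93Hol.extend h0.le h1.le hn E hE φ hφ

end Pool.Agent.Results.MP_e08f0b_an.UpperBound
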